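import Mathlib

/-!
# Intervals of the induced-subgraph poset need not be unimodal
-/

set_option autoImplicit false

namespace Pool.Agent.Results.MP_207d4d_co.NotUnimodal

/-- A finite graph with loops and multiple edges: `m x y` is the number of edges joining `x` and
`y` (for `x = y`, the number of loops at `x`). -/
structure MGraph where
  V : Type
  [fin : Fintype V]
  m : V → V → ℕ
  symm : ∀ x y, m x y = m y x

attribute [instance] MGraph.fin

/-- The number of vertices. -/
def MGraph.order (G : MGraph) : ℕ := Fintype.card G.V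

/-- Isomorphism of graphs. -/
def Iso (G H : MGraph) : Prop := ∃ f : G.V ≃ H.V, ∀ x y, G.m x y = H.m (f x) (f y)

/-- `H` is isomorphic to an induced subgraph of `G`. -/
def Embeds (H G : MGraph) : Prop :=
  ∃ f : H.V → G.V, Function.Injective f ∧ ∀ x y, H.m x y = G.m (f x) (f y)

/-- The isomorphism relation as a setoid; its quotient is the set of unlabelled graphs. -/
def isoSetoid : Setoid MGraph where
  r := Iso
  iseqv :=
    { refl := fun _ => ⟨Equiv.refl _, fun _ _ => rfl⟩
      symm := fun {_ H} ⟨f, hf⟩ => ⟨f.symm, fun x y => by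
        rw [hf, f.apply_symm_apply, f.apply_symm_apply]⟩
      trans := fun ⟨f, hf⟩ ⟨g, hg⟩ => ⟨f.trans g, fun x y => by
        rw [hf, hg]; rfl⟩ }

/-- A graph is connected: the underlying simple graph is connected. -/
def MGraph.Connected (G : MGraph) : Prop :=
  (SimpleGraph.fromRel fun x y : G.V => 0 < G.m x y).Connected

/-- Number of unlabelled graphs `K` with `H ≤ K ≤ G` and `|K| = |H| + k`. -/
noncomputable def rankSize (H G : MGraph) (k : ℕ) : ℕ :=
  Set.ncard {c : Quotient isoSetoid | ∃ K : MGraph, Quotient.mk isoSetoid K = c ∧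
    Embeds H K ∧ Embeds K G ∧ K.order = H.order + k}

/-- Number of connected unlabelled graphs `K` with `H ≤ K ≤ G` and `|K| = |H| + k`. -/
noncomputable def rankSizeConn (H G : MGraph) (k : ℕ) : ℕ :=
  Set.ncard {c : Quotient isoSetoid | ∃ K : MGraph, Quotient.mk isoSetoid K = c ∧
    K.Connected ∧ Embeds H K ∧ Embeds K G ∧ K.order = H.order + k}

/-- The sequence `r 0, …, r n` is unimodal. -/
def IsUnimodal (r : ℕ → ℕ) (n : ℕ) : Prop :=
  ∃ p ≤ n, (∀ i < p, r i ≤ r (i + 1)) ∧ ∀ i, p ≤ i → i < n → r (i + 1) ≤ r i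

/-! ### Complete multipartite graphs -/

/-- The complete multipartite graph with four parts of the given (possibly zero) sizes. -/
def multi (c : Fin 4 → ℕ) : MGraph where
  V := Σ i, Fin (c i)
  m x y := if x.1 = y.1 then 0 else 1
  symm x y := by simp only [eq_comm]

/-- The sizes `8, 8, 4, 4` (listed increasingly). -/
def lam : Fin 4 → ℕ := ![4, 4, 8, 8]

/-- The one-vertex graph. -/
def one : MGraph where
  V := Unit
  m _ _ := 0
  symm _ _ := rfl

lemma sum_sigma4 (c : Fin 4 → ℕ) (g : Fin 4 → ℕ) :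
    ∑ x : (Σ i, Fin (c i)), g x.1 = ∑ i, c i * g i := by
  rw [Fintype.sum_sigma]
  simp

lemma multi_order (c : Fin 4 → ℕ) : (multi c).order = c 0 + c 1 + c 2 + c 3 := by
  have : (multi c).order = Fintype.card (Σ i, Fin (c i)) := rfl
  rw [this, Fintype.card_sigma]
  simp [Fin.sum_univ_four]

lemma iso_order {G H : MGraph} (h : Iso G H) : G.order = H.order := by
  obtain ⟨f, -⟩ := h
  exact Fintype.card_congr f

/-- Number of vertices whose degree (loops not counted twice) is `d`. -/
def degStat (G : MGraph) (d : ℕ) : ℕ :=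
  (Finset.univ.filter fun x : G.V => ∑ y, G.m x y = d).card

lemma iso_degStat {G H : MGraph} (h : Iso G H) (d : ℕ) : degStat G d = degStat H d := by
  obtain ⟨f, hf⟩ := h
  unfold degStat
  refine Finset.card_bij (fun x _ => f x) ?_ (fun x _ y _ hxy => f.injective hxy) ?_
  · intro x hx
    simp only [Finset.mem_filter, Finset.mem_univ, true_and] at hx ⊢
    rw [← hx, ← f.sum_comp]
    exact Finset.sum_congr rfl fun y _ => (hf x y).symm
  · intro y hy
    simp only [Finset.mem_filter, Finset.mem_univ, true_and] at hy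
    refine ⟨f.symm y, ?_, f.apply_symm_apply y⟩
    simp only [Finset.mem_filter, Finset.mem_univ, true_and]
    rw [← hy, ← f.sum_comp (fun z => H.m y z)]
    exact Finset.sum_congr rfl fun z _ => by rw [hf, f.apply_symm_apply]

lemma multi_deg (c : Fin 4 → ℕ) (x : (multi c).V) :
    ∑ y, (multi c).m x y + c x.1 = (multi c).order := by
  have h2 : ∑ y, (multi c).m x y = ∑ i : Fin 4, c i * if x.1 = i then 0 else 1 :=
    sum_sigma4 c (fun i => if x.1 = i then 0 else 1)
  rw [h2, multi_order]
  simp only [Fin.sum_univ_four]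
  generalize x.1 = i
  fin_cases i <;> simp <;> omega

/-- The degree statistics of a complete multipartite graph. -/
lemma multi_degStat (c : Fin 4 → ℕ) (s : ℕ) (hs : s ≤ (multi c).order) :
    degStat (multi c) ((multi c).order - s) =
      s * (Finset.univ.filter fun i => c i = s).card := by
  classical
  have h1 : degStat (multi c) ((multi c).order - s) =
      (Finset.univ.filter fun x : (multi c).V => c x.1 = s).card := by
    unfold degStat
    congr 1
    apply Finset.filter_congr
    intro x _
    have := multi_deg c x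
    omega
  have h2 : (Finset.univ.filter fun x : (multi c).V => c x.1 = s).card =
      ∑ i : Fin 4, c i * if c i = s then 1 else 0 := by
    rw [Finset.card_filter]
    exact sum_sigma4 c (fun i => if c i = s then 1 else 0)
  rw [h1, h2, Finset.card_filter, Finset.mul_sum]
  refine Finset.sum_congr rfl fun i _ => ?_
  by_cases h : c i = s <;> simp [h]

/-! ### Sorted vectors -/

/-- The vector with given entries. -/
def vec (q : ℕ × ℕ × ℕ × ℕ) : Fin 4 → ℕ := ![q.1, q.2.1, q.2.2.1, q.2.2.2]

/-- The nondecreasing quadruples below `lam` with sum `k`. -/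
def T (k : ℕ) : Finset (ℕ × ℕ × ℕ × ℕ) :=
  (Finset.range 5 ×ˢ Finset.range 5 ×ˢ Finset.range 9 ×ˢ Finset.range 9).filter fun q =>
    q.1 ≤ q.2.1 ∧ q.2.1 ≤ q.2.2.1 ∧ q.2.2.1 ≤ q.2.2.2 ∧ q.1 + q.2.1 + q.2.2.1 + q.2.2.2 = k

lemma card_T : (T 14).card = 31 ∧ (T 15).card = 30 ∧ (T 16).card = 31 := by
  decide +kernel

lemma T_inj : ∀ k ∈ ({14, 15, 16} : Finset ℕ), ∀ q ∈ T k, ∀ q' ∈ T k,
    (∀ s ∈ Finset.range 9, s * (Finset.univ.filter fun i => vec q i = s).card =
      s * (Finset.univ.filter fun i => vec q' i = s).card) → q = q' := by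
  decide +kernel

lemma iso_of_perm (c : Fin 4 → ℕ) (σ : Equiv.Perm (Fin 4)) :
    Iso (multi (c ∘ σ)) (multi c) := by
  refine ⟨Equiv.sigmaCongrLeft (β := fun i => Fin (c i)) σ, ?_⟩
  rintro ⟨i, x⟩ ⟨j, y⟩
  show (if i = j then 0 else 1) = if σ i = σ j then 0 else 1
  simp [σ.injective.eq_iff]

/-- Every graph below `multi lam` is isomorphic to some `multi (vec q)`. -/
lemma exists_vec (K : MGraph) (h : Embeds K (multi lam)) :
    ∃ q ∈ T K.order, Iso (multi (vec q)) K := by
  classical
  obtain ⟨f, hf, hm⟩ := h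
  let c : Fin 4 → ℕ := fun i => Fintype.card {x : K.V // (f x).1 = i}
  have hc : ∀ i, c i ≤ lam i := by
    intro i
    have : Function.Injective (fun x : {x : K.V // (f x).1 = i} =>
        (cast (congrArg (fun j => Fin (lam j)) x.2) (f x.1).2 : Fin (lam i))) := by
      rintro ⟨x, hx⟩ ⟨y, hy⟩ hxy
      simp only at hxy
      apply Subtype.ext
      apply hf
      refine Sigma.ext (hx.trans hy.symm) ?_
      have h1 := cast_heq (congrArg (fun j => Fin (lam j)) hx) (f x).2
      have h2 := cast_heq (congrArg (fun j => Fin (lam j)) hy) (f y).2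
      exact h1.symm.trans ((heq_of_eq hxy).trans h2)
    simpa using Fintype.card_le_of_injective _ this
  have hiso : Iso (multi c) K := by
    let g : (multi c).V ≃ K.V :=
      (Equiv.sigmaCongrRight fun i => (Fintype.equivFin {x : K.V // (f x).1 = i}).symm).trans
        (Equiv.sigmaFiberEquiv fun x => (f x).1)
    have hg : ∀ x : (multi c).V, (f (g x)).1 = x.1 := by
      rintro ⟨i, x⟩
      exact ((Fintype.equivFin {x : K.V // (f x).1 = i}).symm x).2
    refine ⟨g, fun x y => ?_⟩
    rw [hm]
    show (if x.1 = y.1 then 0 else 1) = if (f (g x)).1 = (f (g y)).1 then 0 else 1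
    rw [hg, hg]
  let σ := Tuple.sort c
  have hmono : Monotone (c ∘ σ) := Tuple.monotone_sort c
  let μ : Fin 4 → ℕ := c ∘ σ
  have h8 : ∀ i, c i ≤ 8 := fun i => (hc i).trans (by fin_cases i <;> simp [lam])
  have h01 : μ 0 ≤ μ 1 := hmono (by decide)
  have h12 : μ 1 ≤ μ 2 := hmono (by decide)
  have h23 : μ 2 ≤ μ 3 := hmono (by decide)
  have h1 : μ 1 ≤ 4 := by
    by_contra hlt
    push Not at hlt
    have key : ∀ i : Fin 4, c i ≤ 4 → i = σ 0 := by
      intro i hi
      obtain ⟨j, rfl⟩ := σ.surjective i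
      fin_cases j
      · rfl
      · exact absurd hi (not_le.2 hlt)
      · exact absurd hi (not_le.2 (lt_of_lt_of_le hlt h12))
      · exact absurd hi (not_le.2 (lt_of_lt_of_le hlt (h12.trans h23)))
    have h0 := key 0 (hc 0)
    have h1 := key 1 (hc 1)
    exact absurd (h0.trans h1.symm) (by decide)
  have hμ8 : μ 2 ≤ 8 ∧ μ 3 ≤ 8 := ⟨h8 _, h8 _⟩
  have hvec : vec (μ 0, μ 1, μ 2, μ 3) = μ := by
    ext i; fin_cases i <;> rfl
  have hiso' : Iso (multi (vec (μ 0, μ 1, μ 2, μ 3))) K := by
    rw [hvec]
    exact isoSetoid.trans (iso_of_perm c σ) hiso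
  refine ⟨(μ 0, μ 1, μ 2, μ 3), ?_, hiso'⟩
  have hord := iso_order hiso'
  rw [hvec, multi_order] at hord
  simp only [T, Finset.mem_filter, Finset.mem_product, Finset.mem_range]
  omega

lemma T_le {k : ℕ} {q : ℕ × ℕ × ℕ × ℕ} (hq : q ∈ T k) : (∀ i, vec q i ≤ lam i) ∧
    (multi (vec q)).order = k := by
  simp only [T, Finset.mem_filter, Finset.mem_product, Finset.mem_range] at hq
  constructor
  · intro i
    fin_cases i <;> simp [vec, lam] <;> omega
  · rw [multi_order]
    simp [vec]
    omega

lemma embeds_of_le {c d : Fin 4 → ℕ} (h : ∀ i, c i ≤ d i) : Embeds (multi c) (multi d) := by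
  refine ⟨fun x => ⟨x.1, Fin.castLE (h x.1) x.2⟩, ?_, fun x y => rfl⟩
  rintro ⟨i, x⟩ ⟨j, y⟩ hxy
  have h1 : i = j := congrArg Sigma.fst hxy
  subst h1
  have h2 : Fin.castLE (h i) x = Fin.castLE (h i) y := eq_of_heq (Sigma.ext_iff.1 hxy).2
  have h3 : x = y := Fin.castLE_injective (h i) h2
  rw [h3]

lemma connected_of_embeds (K : MGraph) (h : Embeds K (multi lam)) (hK : 9 ≤ K.order) :
    K.Connected := by
  classical
  obtain ⟨f, hf, hm⟩ := h
  have hadj : ∀ x y : K.V, (f x).1 ≠ (f y).1 →
      (SimpleGraph.fromRel fun x y : K.V => 0 < K.m x y).Adj x y := by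
    intro x y hxy
    rw [SimpleGraph.fromRel_adj]
    refine ⟨fun h => hxy (by rw [h]), Or.inl ?_⟩
    rw [hm]
    simp [multi, hxy]
  have hother : ∀ i : Fin 4, ∃ z : K.V, (f z).1 ≠ i := by
    intro i
    by_contra hc
    push Not at hc
    have : Function.Injective (fun x : K.V =>
        (cast (congrArg (fun j => Fin (lam j)) (hc x)) (f x).2 : Fin (lam i))) := by
      intro x y hxy
      simp only at hxy
      apply hf
      refine Sigma.ext ((hc x).trans (hc y).symm) ?_
      have h1 := cast_heq (congrArg (fun j => Fin (lam j)) (hc x)) (f x).2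
      have h2 := cast_heq (congrArg (fun j => Fin (lam j)) (hc y)) (f y).2
      exact h1.symm.trans ((heq_of_eq hxy).trans h2)
    have h1 : K.order ≤ lam i := by
      have h0 := Fintype.card_le_of_injective _ this
      rwa [Fintype.card_fin] at h0
    have h2 : lam i ≤ 8 := by fin_cases i <;> simp [lam]
    omega
  have hne : Nonempty K.V := by
    rw [← Fintype.card_pos_iff]
    exact lt_of_lt_of_le (by norm_num) hK
  refine ⟨fun x y => ?_⟩
  by_cases hxy : (f x).1 = (f y).1
  · obtain ⟨z, hz⟩ := hother (f x).1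
    exact (hadj x z hz.symm).reachable.trans (hadj z y (by rwa [← hxy])).reachable
  · exact (hadj x y hxy).reachable

lemma embeds_one (K : MGraph) (h : Embeds K (multi lam)) (hK : 9 ≤ K.order) : Embeds one K := by
  have hne : Nonempty K.V := by
    rw [← Fintype.card_pos_iff]
    exact lt_of_lt_of_le (by norm_num) hK
  obtain ⟨x⟩ := hne
  obtain ⟨f, -, hm⟩ := h
  refine ⟨fun _ => x, fun _ _ _ => rfl, fun _ _ => ?_⟩
  rw [hm]
  simp [multi, one]

/-- The number of isomorphism classes of each size. -/
lemma level_card (k : ℕ) (hk : k ∈ ({14, 15, 16} : Finset ℕ)) :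
    Set.ncard {c : Quotient isoSetoid | ∃ K : MGraph, Quotient.mk isoSetoid K = c ∧
      Embeds K (multi lam) ∧ K.order = k} = (T k).card := by
  classical
  have himg : {c : Quotient isoSetoid | ∃ K : MGraph, Quotient.mk isoSetoid K = c ∧
      Embeds K (multi lam) ∧ K.order = k} =
        (fun q => Quotient.mk isoSetoid (multi (vec q))) '' (T k : Set (ℕ × ℕ × ℕ × ℕ)) := by
    ext c
    constructor
    · rintro ⟨K, rfl, hK, rfl⟩
      obtain ⟨q, hq, hiso⟩ := exists_vec K hK
      exact ⟨q, hq, Quotient.sound hiso⟩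
    · rintro ⟨q, hq, rfl⟩
      exact ⟨multi (vec q), rfl, embeds_of_le (T_le hq).1, (T_le hq).2⟩
  rw [himg, Set.InjOn.ncard_image, Set.ncard_coe_finset]
  intro q hq q' hq' heq
  have hiso : Iso (multi (vec q)) (multi (vec q')) := Quotient.exact heq
  refine T_inj k hk q hq q' hq' fun s hs => ?_
  have hk9 : 9 ≤ k := by
    simp only [Finset.mem_insert, Finset.mem_singleton] at hk
    omega
  have h1 := (T_le hq).2
  have h2 := (T_le hq').2
  rw [Finset.mem_range] at hs
  rw [← multi_degStat (vec q) s (by omega), ← multi_degStat (vec q') s (by omega),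
    iso_degStat hiso, h1, h2]

lemma rank_eq (k : ℕ) (hk : k + 1 ∈ ({14, 15, 16} : Finset ℕ)) :
    rankSize one (multi lam) k = (T (k + 1)).card := by
  rw [← level_card (k + 1) hk]
  unfold rankSize
  congr 1
  ext c
  have h9 : 9 ≤ k + 1 := by
    simp only [Finset.mem_insert, Finset.mem_singleton] at hk
    omega
  have h1 : one.order = 1 := rfl
  constructor
  · rintro ⟨K, h, -, h3, h4⟩
    exact ⟨K, h, h3, by omega⟩
  · rintro ⟨K, h, h3, h4⟩
    exact ⟨K, h, embeds_one K h3 (by omega), h3, by omega⟩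

lemma rankConn_eq (k : ℕ) (hk : k + 1 ∈ ({14, 15, 16} : Finset ℕ)) :
    rankSizeConn one (multi lam) k = (T (k + 1)).card := by
  rw [← level_card (k + 1) hk]
  unfold rankSizeConn
  congr 1
  ext c
  have h9 : 9 ≤ k + 1 := by
    simp only [Finset.mem_insert, Finset.mem_singleton] at hk
    omega
  have h1 : one.order = 1 := rfl
  constructor
  · rintro ⟨K, h, -, -, h3, h4⟩
    exact ⟨K, h, h3, by omega⟩
  · rintro ⟨K, h, h3, h4⟩
    exact ⟨K, h, connected_of_embeds K h3 (by omega), embeds_one K h3 (by omega), h3, by omega⟩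

lemma not_unimodal (r : ℕ → ℕ) (h13 : r 13 = 31) (h14 : r 14 = 30) (h15 : r 15 = 31) :
    ¬ IsUnimodal r 23 := by
  rintro ⟨p, -, h1, h2⟩
  rcases Nat.lt_or_ge 13 p with hp | hp
  · have := h1 13 hp
    simp only [h13, h14] at this
    omega
  · have := h2 14 (by omega) (by norm_num)
    simp only [h15, h14] at this
    omega

/-- There are connected graphs `H ≤ G` such that neither the interval `[H, G]` in the poset of all
graphs nor the interval in the poset of connected graphs is unimodal. -/
theorem result : ∃ H G : MGraph, H.Connected ∧ G.Connected ∧ Embeds H G ∧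
    ¬ IsUnimodal (rankSize H G) (G.order - H.order) ∧
    ¬ IsUnimodal (rankSizeConn H G) (G.order - H.order) := by
  have hself : Embeds (multi lam) (multi lam) := ⟨id, Function.injective_id, fun _ _ => rfl⟩
  have hord : (multi lam).order = 24 := by rw [multi_order]; rfl
  have h1 : one.order = 1 := rfl
  refine ⟨one, multi lam, ?_, connected_of_embeds _ hself (by omega),
    embeds_one _ hself (by omega), ?_, ?_⟩
  · have : Nonempty one.V := ⟨()⟩
    exact ⟨fun x y => by
      have : x = y := rfl
      rw [this]⟩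
  · rw [hord, h1]
    exact not_unimodal _ ((rank_eq 13 (by decide)).trans card_T.1)
      ((rank_eq 14 (by decide)).trans card_T.2.1) ((rank_eq 15 (by decide)).trans card_T.2.2)
  · rw [hord, h1]
    exact not_unimodal _ ((rankConn_eq 13 (by decide)).trans card_T.1)
      ((rankConn_eq 14 (by decide)).trans card_T.2.1)
      ((rankConn_eq 15 (by decide)).trans card_T.2.2)

end Pool.Agent.Results.MP_207d4d_co.NotUnimodal
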